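import Pool.Agent.N437.SPC.Stm

/-!
# The number of sets almost contained in a container (helper755)
-/

set_option autoImplicit false

namespace Pool.Agent.N755.SPC

open Finset

theorem card_small {α : Type} [DecidableEq α] (S : Finset α) (k : ℕ) :
    (S.powerset.filter (fun E => E.card ≤ k)).card ≤ ∑ j ∈ range (k + 1), S.card.choose j := by
  have h1 : S.powerset.filter (fun E => E.card ≤ k) ⊆
      (range (k + 1)).biUnion (fun j => powersetCard j S) := by
    intro E hE
    rw [mem_filter, mem_powerset] at hE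
    rw [mem_biUnion]
    exact ⟨E.card, mem_range.2 (by omega), mem_powersetCard.2 ⟨hE.1, rfl⟩⟩
  refine (card_le_card h1).trans (card_biUnion_le.trans ?_)
  apply le_of_eq
  exact sum_congr rfl fun j _ => card_powersetCard j S

theorem choose_sum_le (N D : ℕ) : ∑ j ∈ range (D + 1), N.choose j ≤ (N + 1) ^ D := by
  rw [add_pow]
  refine sum_le_sum fun j hj => ?_
  rw [mem_range] at hj
  rw [one_pow, mul_one]
  have h1 : N.choose j ≤ N ^ j := Nat.choose_le_pow N j
  have h2 : 1 ≤ D.choose j := Nat.choose_pos (by omega)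
  calc N.choose j ≤ N ^ j := h1
    _ = N ^ j * 1 := (mul_one _).symm
    _ ≤ N ^ j * D.choose j := Nat.mul_le_mul_left _ h2

theorem choose_le {n y j : ℕ} {M : ℝ} (hn : 0 < n) (hj : j ≤ n) (hy : (y : ℝ) ≤ M)
    (hM : (n : ℝ) ≤ 2 * M) : ((y.choose j : ℕ) : ℝ) ≤ (2 * Real.exp 1 * M / n) ^ n := by
  have hn0 : (0 : ℝ) < n := by exact_mod_cast hn
  have hM0 : 0 < M := by linarith
  have h1 : ((y.choose j : ℕ) : ℝ) ≤ (y : ℝ) ^ j / j.factorial := Nat.choose_le_pow_div j y
  have hf : (0 : ℝ) < j.factorial := by exact_mod_cast j.factorial_pos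
  have h2 : (y : ℝ) ^ j / j.factorial ≤ M ^ j / j.factorial :=
    div_le_div_of_nonneg_right (pow_le_pow_left₀ (Nat.cast_nonneg y) hy j) hf.le
  have h3 : M ^ j / j.factorial = (2 * M / n) ^ j * ((n / 2 : ℝ) ^ j / j.factorial) := by
    rw [← mul_div_assoc, ← mul_pow]
    congr 2
    field_simp
  have hb : 1 ≤ 2 * M / n := by
    rw [le_div_iff₀ hn0]
    linarith
  have h4 : (2 * M / n) ^ j ≤ (2 * M / n) ^ n := pow_le_pow_right₀ hb hj
  have h5 : (n / 2 : ℝ) ^ j / j.factorial ≤ Real.exp (n / 2) :=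
    Real.pow_div_factorial_le_exp _ (by positivity) j
  have h6 : Real.exp (n / 2 : ℝ) ≤ Real.exp 1 ^ n := by
    rw [← Real.exp_nat_mul]
    apply Real.exp_le_exp.2
    linarith
  calc ((y.choose j : ℕ) : ℝ) ≤ (2 * M / n) ^ j * ((n / 2 : ℝ) ^ j / j.factorial) := by
        rw [← h3]
        exact h1.trans h2
    _ ≤ (2 * M / n) ^ n * Real.exp 1 ^ n :=
        mul_le_mul h4 (h5.trans h6) (by positivity) (by positivity)
    _ = (2 * Real.exp 1 * M / n) ^ n := by
        rw [← mul_pow]
        congr 1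
        ring

theorem t_CNT : Pool.Agent.N437.SPC.S_CNT := by
  intro α _ X F n D M hn hD hM hnM
  have hn0 : (0 : ℝ) < n := by exact_mod_cast hn
  have hone : ∀ Y ∈ F, (((X.powersetCard n).filter (fun A => (A \ Y).card ≤ D)).card : ℝ) ≤
      ((X.card : ℝ) + 1) ^ D * (n + 1) * (2 * Real.exp 1 * M / n) ^ n := by
    intro Y hY
    have h1 : ((X.powersetCard n).filter (fun A => (A \ Y).card ≤ D)).card ≤
        (X.powerset.filter (fun E => E.card ≤ D)).card *
          (Y.powerset.filter (fun B => B.card ≤ n)).card := by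
      rw [← card_product]
      apply card_le_card_of_injOn (fun A => (A \ Y, A ∩ Y))
      · intro A hA
        rw [mem_coe, mem_filter, mem_powersetCard] at hA
        obtain ⟨⟨hA1, hA2⟩, hA3⟩ := hA
        rw [mem_coe, mem_product, mem_filter, mem_filter, mem_powerset, mem_powerset]
        exact ⟨⟨sdiff_subset.trans hA1, hA3⟩, inter_subset_right,
          hA2 ▸ card_le_card inter_subset_left⟩
      · intro A _ B _ hAB
        have e1 : A \ Y = B \ Y := congrArg Prod.fst hAB
        have e2 : A ∩ Y = B ∩ Y := congrArg Prod.snd hAB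
        rw [← sdiff_union_inter A Y, ← sdiff_union_inter B Y, e1, e2]
    have h2 : ((X.powerset.filter (fun E => E.card ≤ D)).card : ℝ) ≤ ((X.card : ℝ) + 1) ^ D := by
      exact_mod_cast (card_small X D).trans (choose_sum_le X.card D)
    have h3 : ((Y.powerset.filter (fun B => B.card ≤ n)).card : ℝ) ≤
        (n + 1) * (2 * Real.exp 1 * M / n) ^ n := by
      have h4 : ((Y.powerset.filter (fun B => B.card ≤ n)).card : ℝ) ≤
          ∑ j ∈ range (n + 1), ((Y.card.choose j : ℕ) : ℝ) := by
        exact_mod_cast card_small Y n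
      refine h4.trans ?_
      have h5 : ∀ j ∈ range (n + 1), ((Y.card.choose j : ℕ) : ℝ) ≤
          (2 * Real.exp 1 * M / n) ^ n := fun j hj =>
        choose_le hn (by rw [mem_range] at hj; omega) (hM Y hY) hnM
      refine (sum_le_sum h5).trans ?_
      rw [sum_const, card_range, nsmul_eq_mul]
      push_cast
      exact le_rfl
    calc (((X.powersetCard n).filter (fun A => (A \ Y).card ≤ D)).card : ℝ) ≤
          (X.powerset.filter (fun E => E.card ≤ D)).card *
            (Y.powerset.filter (fun B => B.card ≤ n)).card := by exact_mod_cast h1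
      _ ≤ ((X.card : ℝ) + 1) ^ D * ((n + 1) * (2 * Real.exp 1 * M / n) ^ n) :=
          mul_le_mul h2 h3 (Nat.cast_nonneg _) (by positivity)
      _ = _ := by ring
  have hsub : (X.powersetCard n).filter (fun A => ∃ Y ∈ F, (A \ Y).card ≤ D) ⊆
      F.biUnion (fun Y => (X.powersetCard n).filter (fun A => (A \ Y).card ≤ D)) := by
    intro A hA
    rw [mem_filter] at hA
    obtain ⟨hA1, Y, hY, hA2⟩ := hA
    rw [mem_biUnion]
    exact ⟨Y, hY, mem_filter.2 ⟨hA1, hA2⟩⟩
  have h1 : (((X.powersetCard n).filter (fun A => ∃ Y ∈ F, (A \ Y).card ≤ D)).card : ℝ) ≤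
      ∑ Y ∈ F, (((X.powersetCard n).filter (fun A => (A \ Y).card ≤ D)).card : ℝ) := by
    exact_mod_cast (card_le_card hsub).trans card_biUnion_le
  refine h1.trans ((sum_le_sum hone).trans ?_)
  rw [sum_const, nsmul_eq_mul]
  apply le_of_eq
  ring

end Pool.Agent.N755.SPC
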